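import Pool.Agent.E8helper40.EQ.Defs

/-!
# Independence of the Galois orbits of special points with different CM fields
-/

set_option autoImplicit false

open MeasureTheory Filter Topology
open scoped ENNReal BoundedContinuousFunction

namespace Pool.Agent.E8helper40.EQ

variable {G : Type} [Group G] {Γ : Subgroup G} {J : Type} [Fintype J] {W : J → Type}

section orbits

variable (P : ∀ j, SpecialPoints Γ (W j))

omit [Fintype J] in
/-- Moving one coordinate of a point of the orbit of `x`. -/
lemma move [DecidableEq J] (x : ∀ j, (P j).Z) (B : J → Subgroup Γ) (k : ℕ)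
    (hB : ∀ j, ∀ v ∈ powers (B j) k, ∃ u : Γ, (∀ i, i ≠ j → (u : G) ∈ (P i).N (x i)) ∧
      (u : G) * (v : G)⁻¹ ∈ (P j).N (x j))
    (y : ∀ j, (P j).Z) (hy : y ∈ MulAction.orbit Γ x) (j : J) (v : Γ) (hv : v ∈ powers (B j) k) :
    Function.update y j (v • y j) ∈ MulAction.orbit Γ x := by
  obtain ⟨u, hu1, hu2⟩ := hB j v hv
  obtain ⟨γ, rfl⟩ := hy
  have hNx : ∀ i, (P i).N ((γ • x) i) = (P i).N (x i) := fun i => (P i).N_smul γ (x i)
  have h : Function.update (γ • x) j (v • (γ • x) j) = u • (γ • x) := by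
    funext i
    rcases eq_or_ne i j with rfl | hi
    · rw [Function.update_self]
      have h1 : (u * v⁻¹) • (v • (γ • x) i) = v • (γ • x) i := by
        refine (P i).fixed _ _ ?_
        rw [(P i).N_smul, hNx]
        exact hu2
      rw [smul_smul, inv_mul_cancel_right] at h1
      exact h1.symm
    · rw [Function.update_of_ne hi]
      refine ((P i).fixed u _ ?_).symm
      rw [hNx]
      exact hu1 i hi
  rw [h]
  exact ⟨u * γ, mul_smul u γ x⟩

/-- The orbit of `x` is stable under independent changes of the coordinates. -/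
lemma move_all (x : ∀ j, (P j).Z) (B : J → Subgroup Γ) (k : ℕ)
    (hB : ∀ j, ∀ v ∈ powers (B j) k, ∃ u : Γ, (∀ i, i ≠ j → (u : G) ∈ (P i).N (x i)) ∧
      (u : G) * (v : G)⁻¹ ∈ (P j).N (x j))
    (y : ∀ j, (P j).Z) (hy : y ∈ MulAction.orbit Γ x) (z : ∀ j, (P j).Z)
    (hz : ∀ j, z j ∈ MulAction.orbit (powers (B j) k) (y j)) : z ∈ MulAction.orbit Γ x := by
  classical
  have key : ∀ s : Finset J, (fun j => if j ∈ s then z j else y j) ∈ MulAction.orbit Γ x := by
    intro s
    induction s using Finset.induction_on with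
    | empty => simpa using hy
    | insert a s ha ih =>
      obtain ⟨v, hv⟩ := hz a
      have h := move P x B k hB _ ih a v v.2
      convert h using 1
      funext i
      rcases eq_or_ne i a with rfl | hi
      · rw [Function.update_self]
        simp only [Finset.mem_insert_self, if_true, ha, if_false]
        exact hv.symm
      · rw [Function.update_of_ne hi]
        simp [Finset.mem_insert, hi]
  simpa using key Finset.univ

lemma orbit_finite (x : ∀ j, (P j).Z) : (MulAction.orbit Γ x).Finite := by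
  refine (Set.Finite.pi' fun j => (P j).orbit_finite (x j)).subset ?_
  rintro _ ⟨γ, rfl⟩ j
  exact ⟨γ, rfl⟩

end orbits

variable [∀ j, TopologicalSpace (W j)] [∀ j, SecondCountableTopology (W j)]
  [∀ j, TopologicalSpace.PseudoMetrizableSpace (W j)] [∀ j, MeasurableSpace (W j)]
  [∀ j, BorelSpace (W j)]

/-- The independence theorem: if the CM fields of the coordinates of the points `x i` are
independent and each coordinate is strongly equidistributed with respect to `m j`, then the Galois
orbits of the `x i` are equidistributed with respect to the product of the `m j`. -/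
theorem main (hΓ : Γ.index ≠ 0) (P : ∀ j, SpecialPoints Γ (W j))
    (m : ∀ j, ProbabilityMeasure (W j)) (c : ℕ) (x : ℕ → ∀ j, (P j).Z)
    (hK : ∀ i j, ((P j).K (x i j)).index ≠ 0 ∧ ((P j).K (x i j)).index ≤ c)
    (hind : ∀ i, Independent P c (x i))
    (heq : ∀ j, (P j).StronglyEquidistributed (fun i => x i j) (m j)) (f : (∀ j, W j) →ᵇ ℝ) :
    Tendsto (fun i => ∫ w, f w ∂(galoisMeasure P (x i))) atTop
      (𝓝 (∫ w, f w ∂(Measure.pi fun j => (m j : Measure (W j))))) := by
  classical
  obtain ⟨c', hc'⟩ := exists_subgroup (J := J) Γ hΓ c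
  set k := Fintype.card J - 1
  have hB : ∀ i j, ∃ B : Subgroup Γ, B.index ≠ 0 ∧ B.index ≤ c' ∧
      (∀ b ∈ B, (b : G) ∈ (P j).K (x i j)) ∧
      ∀ v ∈ powers B k, ∃ u : Γ, (∀ l, l ≠ j → (u : G) ∈ (P l).N (x i l)) ∧
        (u : G) * (v : G)⁻¹ ∈ (P j).N (x i j) := fun i j =>
    hc' j (fun l => (P l).K (x i l)) (fun l => (P l).N (x i l)) (fun l => (P l).N_normal _)
      ((P j).comm _) (hK i j).1 (hK i j).2 (fun l hl => hind i l j hl)
  choose B hB0 hBc hBK hBu using hB
  -- orbits as finite sets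
  let O : ℕ → Finset (∀ j, (P j).Z) := fun i => (orbit_finite P (x i)).toFinset
  have hOfin : ∀ i j (z : (P j).Z), (MulAction.orbit (powers (B i j) k) z).Finite := by
    intro i j z
    refine ((P j).orbit_finite z).subset ?_
    rintro _ ⟨v, rfl⟩
    exact ⟨(v : Γ), rfl⟩
  let Q : ∀ (i : ℕ) (j : J), (P j).Z → Finset (P j).Z := fun i j z => (hOfin i j z).toFinset
  let R : ∀ i : ℕ, (∀ j, (P j).Z) → Finset (∀ j, (P j).Z) := fun i z =>
    Fintype.piFinset fun j => Q i j (z j)
  set I := ∫ w, f w ∂(Measure.pi fun j => (m j : Measure (W j)))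
  let φ : (∀ j, (P j).Z) → ∀ j, W j := fun z j => (P j).pt (z j)
  have hmemO : ∀ i z, z ∈ O i ↔ z ∈ MulAction.orbit Γ (x i) := fun i z => by simp [O]
  have hmemR : ∀ i y z, z ∈ R i y ↔ ∀ j, z j ∈ MulAction.orbit (powers (B i j) k) (y j) := by
    intro i y z
    simp [R, Q, Fintype.mem_piFinset]
  have hblock : ∀ i, ∃ y ∈ O i, |((O i).card : ℝ)⁻¹ * ∑ z ∈ O i, f (φ z) - I|
      ≤ |((R i y).card : ℝ)⁻¹ * ∑ z ∈ R i y, f (φ z) - I| := by
    intro i
    refine exists_block (O i) ⟨x i, (hmemO i _).2 (MulAction.mem_orbit_self _)⟩ (R i) ?_ ?_ ?_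
      (fun z => f (φ z)) I
    · intro y hy z hz
      rw [hmemO] at hy ⊢
      exact move_all P (x i) (B i) k (hBu i) y hy z ((hmemR i y z).1 hz)
    · intro y _
      rw [hmemR]
      exact fun j => MulAction.mem_orbit_self _
    · intro y _ z hz
      have h := (hmemR i y z).1 hz
      ext w
      rw [hmemR, hmemR]
      refine forall_congr' fun j => ?_
      rw [MulAction.orbit_eq_iff.2 (h j)]
  choose y hyO hy using hblock
  have hyγ : ∀ i, ∃ γ : Γ, y i = γ • x i := by
    intro i
    obtain ⟨γ, hγ⟩ := (hmemO i _).1 (hyO i)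
    exact ⟨γ, hγ.symm⟩
  choose γ hγ using hyγ
  -- the measures of the blocks
  have hQne : ∀ i j, (Q i j (y i j)).Nonempty := fun i j =>
    ⟨y i j, by simp [Q, MulAction.mem_orbit_self]⟩
  let ν : ℕ → ∀ j, ProbabilityMeasure (W j) := fun i j =>
    ⟨uniform (Q i j (y i j) : Set (P j).Z) (P j).pt, uniform_prob _ (hQne i j) _⟩
  have hν : Tendsto ν atTop (𝓝 m) := by
    rw [tendsto_pi_nhds]
    intro j
    rw [ProbabilityMeasure.tendsto_iff_forall_integral_tendsto]
    intro g
    rw [Metric.tendsto_atTop']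
    intro ε hε
    obtain ⟨M, hM⟩ := eventually_atTop.1 (heq j c' k g ε hε)
    refine ⟨M, fun i hi => ?_⟩
    have h := hM i hi.le (γ i) (B i j) (hBK i j) (hB0 i j) (hBc i j)
    rw [Real.dist_eq]
    have hQ : (Q i j (y i j) : Set (P j).Z)
        = MulAction.orbit (powers (B i j) k) (γ i • x i j) := by
      have h1 : y i j = γ i • x i j := by
        rw [hγ i]
        rfl
      simp only [Q, Set.Finite.coe_toFinset]
      rw [h1]
    have hmeas : ((ν i j : ProbabilityMeasure (W j)) : Measure (W j))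
        = (P j).orbitMeasure (powers (B i j) k) (γ i • x i j) := by
      change uniform (Q i j (y i j) : Set (P j).Z) (P j).pt = _
      rw [hQ]
      rfl
    rw [hmeas]
    exact h
  have hpi : Tendsto (fun i => ∫ w, f w ∂((ProbabilityMeasure.pi (ν i) :
      ProbabilityMeasure (∀ j, W j)) : Measure (∀ j, W j))) atTop (𝓝 I) := by
    have h1 : Tendsto (fun i => ProbabilityMeasure.pi (ν i)) atTop
        (𝓝 (ProbabilityMeasure.pi m)) :=
      (ProbabilityMeasure.continuous_pi.tendsto m).comp hν
    exact (ProbabilityMeasure.tendsto_iff_forall_integral_tendsto.1 h1) f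
  have hR : ∀ i, ∫ w, f w ∂((ProbabilityMeasure.pi (ν i) :
      ProbabilityMeasure (∀ j, W j)) : Measure (∀ j, W j))
      = ((R i (y i)).card : ℝ)⁻¹ * ∑ z ∈ R i (y i), f (φ z) := by
    intro i
    rw [ProbabilityMeasure.toMeasure_pi]
    have h := pi_uniform (fun j => Q i j (y i j)) (hQne i) (fun j => (P j).pt)
    change ∫ w, f w ∂(Measure.pi fun j => uniform (Q i j (y i j) : Set (P j).Z) (P j).pt) = _
    rw [h, integral_uniform]
  have hE : ∀ i, ∫ w, f w ∂(galoisMeasure P (x i))
      = ((O i).card : ℝ)⁻¹ * ∑ z ∈ O i, f (φ z) := by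
    intro i
    rw [galoisMeasure, show MulAction.orbit Γ (x i) = (O i : Set (∀ j, (P j).Z)) by simp [O],
      integral_uniform]
  have hpi' : Tendsto (fun i => |∫ w, f w ∂((ProbabilityMeasure.pi (ν i) :
      ProbabilityMeasure (∀ j, W j)) : Measure (∀ j, W j)) - I|) atTop (𝓝 0) := by
    have h := (hpi.sub_const I).abs
    simpa using h
  rw [tendsto_iff_dist_tendsto_zero]
  refine squeeze_zero (fun i => dist_nonneg) (fun i => ?_) hpi'
  rw [Real.dist_eq, hE i, hR i]
  exact hy i

end Pool.Agent.E8helper40.EQ
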