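import Mathlib

/-!
# Averages over finite sets
-/

set_option autoImplicit false

open MeasureTheory Filter Topology
open scoped ENNReal BoundedContinuousFunction

namespace Pool.Agent.E8helper40.EQ

/-- The uniform probability measure on the finite set `S`, moved to `X` by `φ`. -/
noncomputable def uniform {Z X : Type*} [MeasurableSpace X] (S : Set Z) (φ : Z → X) : Measure X :=
  (S.ncard : ℝ≥0∞)⁻¹ • ∑ᶠ y ∈ S, Measure.dirac (φ y)

section

variable {Z X : Type*} [MeasurableSpace X]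

lemma uniform_coe (S : Finset Z) (φ : Z → X) :
    uniform (S : Set Z) φ = (S.card : ℝ≥0∞)⁻¹ • ∑ y ∈ S, Measure.dirac (φ y) := by
  rw [uniform, Set.ncard_coe_finset, finsum_mem_coe_finset]

lemma uniform_apply (S : Finset Z) (φ : Z → X) {s : Set X} (hs : MeasurableSet s) :
    uniform (S : Set Z) φ s = (S.card : ℝ≥0∞)⁻¹ * ∑ y ∈ S, s.indicator 1 (φ y) := by
  rw [uniform_coe, Measure.smul_apply, Measure.finsetSum_apply, smul_eq_mul]
  congr 1
  exact Finset.sum_congr rfl fun y _ => Measure.dirac_apply' _ hs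

lemma uniform_prob (S : Finset Z) (hS : S.Nonempty) (φ : Z → X) :
    IsProbabilityMeasure (uniform (S : Set Z) φ) := by
  constructor
  rw [uniform_apply S φ MeasurableSet.univ]
  simp only [Set.indicator_univ, Pi.one_apply, Finset.sum_const, nsmul_eq_mul, mul_one]
  refine ENNReal.inv_mul_cancel ?_ (ENNReal.natCast_ne_top _)
  exact_mod_cast hS.card_pos.ne'

lemma integral_uniform [TopologicalSpace X] [OpensMeasurableSpace X] (S : Finset Z) (φ : Z → X)
    (f : X →ᵇ ℝ) : ∫ x, f x ∂(uniform (S : Set Z) φ) = (S.card : ℝ)⁻¹ * ∑ y ∈ S, f (φ y) := by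
  rw [uniform_coe, integral_smul_measure, integral_finsetSum_measure]
  · rw [ENNReal.toReal_inv, ENNReal.toReal_natCast, smul_eq_mul]
    congr 1
    refine Finset.sum_congr rfl fun y _ => ?_
    exact integral_dirac' _ _ f.continuous.measurable.stronglyMeasurable
  · intro y _
    exact f.integrable _

end

/-- Products of uniform measures. -/
lemma pi_uniform {J : Type*} [Fintype J] [DecidableEq J] {Z Y : J → Type*}
    [∀ j, MeasurableSpace (Y j)] (S : ∀ j, Finset (Z j)) (hS : ∀ j, (S j).Nonempty)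
    (φ : ∀ j, Z j → Y j) :
    Measure.pi (fun j => uniform (S j : Set (Z j)) (φ j))
      = uniform (Fintype.piFinset S : Set (∀ j, Z j)) (fun z j => φ j (z j)) := by
  have : ∀ j, IsProbabilityMeasure (uniform (S j : Set (Z j)) (φ j)) :=
    fun j => uniform_prob (S j) (hS j) (φ j)
  refine Measure.pi_eq fun s hs => ?_
  rw [uniform_apply _ _ (MeasurableSet.univ_pi hs)]
  simp only [uniform_apply _ _ (hs _)]
  rw [Finset.prod_mul_distrib, Fintype.card_piFinset, Finset.prod_univ_sum]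
  congr 1
  · rw [Nat.cast_prod, ENNReal.prod_inv_distrib]
    intro a _ b _ _
    left
    exact_mod_cast (hS a).card_pos.ne'
  · refine Finset.sum_congr rfl fun z _ => ?_
    by_cases h : ∀ j, φ j (z j) ∈ s j
    · rw [Set.indicator_of_mem (show (fun j => φ j (z j)) ∈ Set.univ.pi s from fun j _ => h j)]
      simp [Set.indicator_of_mem (h _)]
    · push Not at h
      obtain ⟨j, hj⟩ := h
      rw [Set.indicator_of_notMem
        (show (fun j => φ j (z j)) ∉ Set.univ.pi s from fun h' => hj (h' j trivial))]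
      exact (Finset.prod_eq_zero (Finset.mem_univ j) (Set.indicator_of_notMem hj _)).symm

/-- The deviation of the average over `O` is at most the deviation of the average over some
block. -/
lemma exists_block {Z : Type*} [DecidableEq Z] (O : Finset Z) (hO : O.Nonempty) (P : Z → Finset Z)
    (h1 : ∀ y ∈ O, P y ⊆ O) (h2 : ∀ y ∈ O, y ∈ P y) (h3 : ∀ y ∈ O, ∀ z ∈ P y, P z = P y)
    (f : Z → ℝ) (I : ℝ) :
    ∃ y ∈ O, |(O.card : ℝ)⁻¹ * ∑ z ∈ O, f z - I| ≤ |((P y).card : ℝ)⁻¹ * ∑ z ∈ P y, f z - I| := by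
  let a : Z → ℝ := fun y => ((P y).card : ℝ)⁻¹ * ∑ z ∈ P y, f z
  have hsum : ∑ y ∈ O, a y = ∑ z ∈ O, f z := by
    simp only [a, Finset.mul_sum]
    rw [Finset.sum_comm' (t' := O) (s' := fun z => P z)]
    · refine Finset.sum_congr rfl fun z hz => ?_
      have hcard : ∀ y ∈ P z, ((P y).card : ℝ)⁻¹ * f z = ((P z).card : ℝ)⁻¹ * f z := by
        intro y hy
        rw [h3 z hz y hy]
      rw [Finset.sum_congr rfl hcard, Finset.sum_const, nsmul_eq_mul, ← mul_assoc,
        mul_inv_cancel₀, one_mul]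
      have := Finset.card_pos.2 ⟨z, h2 z hz⟩
      exact_mod_cast this.ne'
    · intro y z
      constructor
      · rintro ⟨hy, hz⟩
        have hzO := h1 y hy hz
        refine ⟨?_, hzO⟩
        rw [h3 y hy z hz]
        exact h2 y hy
      · rintro ⟨hy, hz⟩
        have hyO := h1 z hz hy
        refine ⟨hyO, ?_⟩
        rw [h3 z hz y hy]
        exact h2 z hz
  by_contra hcon
  push Not at hcon
  have hpos : (0 : ℝ) < O.card := by exact_mod_cast hO.card_pos
  have h4 : (O.card : ℝ)⁻¹ * ∑ z ∈ O, f z - I = (O.card : ℝ)⁻¹ * ∑ y ∈ O, (a y - I) := by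
    rw [Finset.sum_sub_distrib, hsum, Finset.sum_const, nsmul_eq_mul, mul_sub, ← mul_assoc,
      inv_mul_cancel₀ hpos.ne', one_mul]
  have h5 : |(O.card : ℝ)⁻¹ * ∑ y ∈ O, (a y - I)| < |(O.card : ℝ)⁻¹ * ∑ z ∈ O, f z - I| := by
    rw [abs_mul, abs_of_pos (inv_pos.2 hpos)]
    calc (O.card : ℝ)⁻¹ * |∑ y ∈ O, (a y - I)|
        ≤ (O.card : ℝ)⁻¹ * ∑ y ∈ O, |a y - I| :=
          mul_le_mul_of_nonneg_left (Finset.abs_sum_le_sum_abs _ _) (inv_pos.2 hpos).le
      _ < (O.card : ℝ)⁻¹ * ∑ _y ∈ O, |(O.card : ℝ)⁻¹ * ∑ z ∈ O, f z - I| :=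
          mul_lt_mul_of_pos_left (Finset.sum_lt_sum_of_nonempty hO fun y hy => hcon y hy)
            (inv_pos.2 hpos)
      _ = _ := by
          rw [Finset.sum_const, nsmul_eq_mul, ← mul_assoc, inv_mul_cancel₀ hpos.ne', one_mul]
  rw [← h4] at h5
  exact lt_irrefl _ h5

end Pool.Agent.E8helper40.EQ
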