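import Pool.Agent.E8helper40.EQ.Group
import Pool.Agent.E8helper40.EQ.Average

/-!
# Special points and their Galois orbits
-/

set_option autoImplicit false

open MeasureTheory Filter Topology
open scoped ENNReal BoundedContinuousFunction

namespace Pool.Agent.E8helper40.EQ

/-- A set `Z` of special points on a space `Y`, with the action of the Galois group `Γ ⊂ G` of a
number field. For `z ∈ Z`, `K z ⊂ G` is the Galois group of the CM field of `z` and `N z` the Galois
group of an abelian extension `H z` of this field, Galois over `ℚ`, such that `z` is defined over the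
compositum of `H z` and the number field. -/
structure SpecialPoints {G : Type} [Group G] (Γ : Subgroup G) (Y : Type) where
  Z : Type
  pt : Z → Y
  pt_injective : Function.Injective pt
  [act : MulAction Γ Z]
  orbit_finite : ∀ z : Z, (MulAction.orbit Γ z).Finite
  K : Z → Subgroup G
  N : Z → Subgroup G
  N_normal : ∀ z, (N z).Normal
  comm : ∀ z, ∀ a ∈ K z, ∀ b ∈ K z, a * b * a⁻¹ * b⁻¹ ∈ N z
  K_smul : ∀ (γ : Γ) (z : Z), K (γ • z) = K z
  N_smul : ∀ (γ : Γ) (z : Z), N (γ • z) = N z
  fixed : ∀ (γ : Γ) (z : Z), (γ : G) ∈ N z → γ • z = z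

attribute [instance] SpecialPoints.act

variable {G : Type} [Group G] {Γ : Subgroup G} {Y : Type}

/-- The uniform probability measure on the orbit of `z` under a subgroup `B` of `Γ`. -/
noncomputable def SpecialPoints.orbitMeasure [MeasurableSpace Y] (P : SpecialPoints Γ Y)
    (B : Subgroup Γ) (z : P.Z) : Measure Y :=
  uniform (MulAction.orbit B z) P.pt

/-- The sequence `x i` of special points is strongly equidistributed with respect to `m`: for all
`c` and `k`, the orbits of the Galois conjugates of `x i` under the subgroups generated by the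
`2 ^ k`-th powers of the elements of subgroups of index at most `c` are equidistributed with respect
to `m`, uniformly. -/
def SpecialPoints.StronglyEquidistributed [TopologicalSpace Y] [MeasurableSpace Y]
    (P : SpecialPoints Γ Y) (x : ℕ → P.Z) (m : ProbabilityMeasure Y) : Prop :=
  ∀ (c k : ℕ) (f : Y →ᵇ ℝ) (ε : ℝ), 0 < ε → ∀ᶠ i in atTop, ∀ (γ : Γ) (B : Subgroup Γ),
    (∀ b ∈ B, (b : G) ∈ P.K (x i)) → B.index ≠ 0 → B.index ≤ c →
      |∫ y, f y ∂(P.orbitMeasure (powers B k) (γ • x i)) - ∫ y, f y ∂(m : Measure Y)| < ε

variable {J : Type} {W : J → Type}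

/-- The uniform measure on the orbit of `x = (x j)` under `Γ`, in the product of the spaces. -/
noncomputable def galoisMeasure [∀ j, MeasurableSpace (W j)] (P : ∀ j, SpecialPoints Γ (W j))
    (x : ∀ j, (P j).Z) : Measure (∀ j, W j) :=
  uniform (MulAction.orbit Γ x) fun z j => (P j).pt (z j)

/-- The CM fields of the coordinates `x j` are independent, with constant `c`: for `i ≠ j` some
automorphism which is trivial on the CM field of `x j` acts on a subgroup of index at most `c` by
inversion, modulo `N (x i)`. -/
def Independent (P : ∀ j, SpecialPoints Γ (W j)) (c : ℕ) (x : ∀ j, (P j).Z) : Prop :=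
  ∀ i j, i ≠ j → ∃ g ∈ (P j).K (x j), ∃ T : Subgroup G, T.index ≠ 0 ∧ T.index ≤ c ∧
    ∀ t ∈ T, g * t * g⁻¹ * t ∈ (P i).N (x i)

end Pool.Agent.E8helper40.EQ
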