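import Pool.Agent.E8helper40.EQ.Main

/-!
# Independence from conditions on the CM fields
-/

set_option autoImplicit false

open MeasureTheory Filter Topology
open scoped ENNReal BoundedContinuousFunction

namespace Pool.Agent.E8helper40.EQ

variable {G : Type} [Group G] {Γ : Subgroup G}

/-- `conj ∈ G` is a complex conjugation. For all special points `z`: the field of `z` is Galois over
`ℚ`, of degree at most `C`, and the complex conjugation acts by inversion on the elements of a
subgroup of index at most `C` of the Galois group, modulo `N z`. -/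
def CMType (conj : G) (C : ℕ) {Y : Type} (P : SpecialPoints Γ Y) : Prop :=
  ∀ z : P.Z, (P.K z).Normal ∧ (P.K z).index ≠ 0 ∧ (P.K z).index ≤ C ∧
    ∃ T : Subgroup G, T.index ≠ 0 ∧ T.index ≤ C ∧ ∀ t ∈ T, conj * t * conj⁻¹ * t ∈ P.N z

/-- Two special points have fields with a totally real intersection: the complex conjugation is a
product of automorphisms which are trivial on one of the fields. -/
lemma inverts {conj : G} {C : ℕ} {Y Y' : Type} {P : SpecialPoints Γ Y} {P' : SpecialPoints Γ Y'}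
    (hP : CMType conj C P) (hP' : CMType conj C P') (z : P.Z) (z' : P'.Z)
    (h : conj ∈ P.K z ⊔ P'.K z') :
    ∃ g ∈ P'.K z', ∃ T : Subgroup G, T.index ≠ 0 ∧ T.index ≤ C * C ∧
      ∀ t ∈ T, g * t * g⁻¹ * t ∈ P.N z := by
  obtain ⟨hKn, hK0, hKC, T, hT0, hTC, hT⟩ := hP z
  have hKn' := (hP' z').1
  rw [sup_comm, Subgroup.mem_sup_of_normal_right] at h
  obtain ⟨a, ha, b, hb, hab⟩ := h
  refine ⟨a, ha, T ⊓ P.K z, Subgroup.index_inf_ne_zero hT0 hK0,
    Subgroup.index_inf_le.trans (Nat.mul_le_mul hTC hKC), ?_⟩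
  rintro t ⟨htT, htK⟩
  have hN := P.N_normal z
  have h1 := P.comm z b⁻¹ ((P.K z).inv_mem hb) t htK
  have h2 := hT t htT
  rw [← QuotientGroup.eq_one_iff] at h1 h2 ⊢
  simp only [QuotientGroup.mk_mul, QuotientGroup.mk_inv, inv_inv] at h1 h2 ⊢
  have h3 : (a : G ⧸ P.N z) = (conj : G ⧸ P.N z) * (b : G ⧸ P.N z)⁻¹ := by
    rw [← hab]
    simp
  have h4 : (b : G ⧸ P.N z)⁻¹ * t * b = t := by
    rw [mul_inv_eq_one] at h1
    exact h1
  rw [h3, mul_inv_rev, inv_inv]
  calc (conj : G ⧸ P.N z) * (b : G ⧸ P.N z)⁻¹ * t * (b * (conj : G ⧸ P.N z)⁻¹) * t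
      = conj * ((b : G ⧸ P.N z)⁻¹ * t * b) * (conj : G ⧸ P.N z)⁻¹ * t := by group
    _ = 1 := by rw [h4, h2]

/-- Different subgroups of index two generate the group. -/
lemma sup_eq_top {H K : Subgroup G} (hH : H.index = 2) (hK : K.index = 2) (hne : H ≠ K) :
    H ⊔ K = ⊤ := by
  have h1 : (H ⊔ K).index ∣ 2 := hH ▸ Subgroup.index_dvd_of_le le_sup_left
  rcases (Nat.dvd_prime Nat.prime_two).1 h1 with h | h
  · exact Subgroup.index_eq_one.1 h
  · exfalso
    apply hne
    have h2 : H = H ⊔ K := by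
      apply le_antisymm le_sup_left
      rw [← Subgroup.relIndex_eq_one]
      have := Subgroup.relIndex_mul_index (le_sup_left : H ≤ H ⊔ K)
      rw [h, hH] at this
      omega
    have h3 : K = H ⊔ K := by
      apply le_antisymm le_sup_right
      rw [← Subgroup.relIndex_eq_one]
      have := Subgroup.relIndex_mul_index (le_sup_right : K ≤ H ⊔ K)
      rw [h, hK] at this
      omega
    rw [h2]
    exact h3.symm

end Pool.Agent.E8helper40.EQ
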