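import Mathlib

/-!
# Subgroups of Galois groups which move one coordinate only

`G` is a group, `K j` are subgroups of finite index, `N j` normal subgroups with `K j / N j`
abelian, and for `i ≠ j` some element of `K j` inverts a subgroup of small index modulo `N i`.
-/

set_option autoImplicit false

namespace Pool.Agent.E8helper40.EQ

/-- The subgroup generated by the `2 ^ k`-th powers of the elements of `B`. -/
def powers {G : Type*} [Group G] (B : Subgroup G) (k : ℕ) : Subgroup G :=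
  Subgroup.closure {b | ∃ t ∈ B, b = t ^ 2 ^ k}

lemma powers_le {G : Type*} [Group G] (B : Subgroup G) (k : ℕ) : powers B k ≤ B := by
  rw [powers, Subgroup.closure_le]
  rintro _ ⟨t, ht, rfl⟩
  exact B.pow_mem ht _

section

variable {G : Type*} [Group G] {J : Type*} [DecidableEq J]

/-- Iterated commutator-like elements. -/
lemma step (j : J) (K N : J → Subgroup G) (hN : ∀ i, (N i).Normal)
    (hcomm : ∀ a ∈ K j, ∀ b ∈ K j, a * b * a⁻¹ * b⁻¹ ∈ N j)
    (T' : Subgroup G) (hT' : T'.Normal) (hTK : T' ≤ K j)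
    (g : J → G) (hg : ∀ i, i ≠ j → g i ∈ K j)
    (hinv : ∀ i, i ≠ j → ∀ t ∈ T', g i * t * (g i)⁻¹ * t ∈ N i)
    (s : Finset J) (hs : j ∉ s) (t : G) (ht : t ∈ T') :
    ∃ u ∈ T', (∀ i ∈ s, u ∈ N i) ∧ u * (t ^ 2 ^ s.card)⁻¹ ∈ N j := by
  induction s using Finset.induction_on with
  | empty => exact ⟨t, ht, by simp, by simp [(N j).one_mem]⟩
  | insert i s hi ih =>
    obtain ⟨u, hu, huN, huj⟩ := ih (fun h => hs (Finset.mem_insert_of_mem h))
    have hij : i ≠ j := fun h => hs (h ▸ Finset.mem_insert_self i s)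
    refine ⟨g i * u * (g i)⁻¹ * u, T'.mul_mem (hT'.conj_mem u hu (g i)) hu, ?_, ?_⟩
    · intro a ha
      rcases Finset.mem_insert.1 ha with rfl | ha
      · exact hinv a hij u hu
      · exact (N a).mul_mem ((hN a).conj_mem u (huN a ha) (g i)) (huN a ha)
    · have : (N j).Normal := hN j
      rw [Finset.card_insert_of_notMem hi]
      have h1 := hcomm (g i) (hg i hij) u (hTK hu)
      rw [← QuotientGroup.eq_one_iff] at h1 huj ⊢
      simp only [QuotientGroup.mk_mul, QuotientGroup.mk_inv, QuotientGroup.mk_pow] at h1 huj ⊢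
      have h2 : (u : G ⧸ N j) = (t : G ⧸ N j) ^ 2 ^ s.card := by
        rw [mul_inv_eq_one] at huj
        exact huj
      have h3 : (g i : G ⧸ N j) * u * (g i : G ⧸ N j)⁻¹ = u := by
        rw [mul_inv_eq_one] at h1
        exact h1
      rw [h3, h2, ← pow_add, pow_succ, mul_two, mul_inv_cancel]

/-- The main lemma on groups: the existence of the subgroup `B` of `Γ`. -/
theorem exists_subgroup [Fintype J] (Γ : Subgroup G) (hΓ : Γ.index ≠ 0) (c : ℕ) :
    ∃ c' : ℕ, ∀ (j : J) (K N : J → Subgroup G), (∀ i, (N i).Normal) →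
      (∀ a ∈ K j, ∀ b ∈ K j, a * b * a⁻¹ * b⁻¹ ∈ N j) → (K j).index ≠ 0 → (K j).index ≤ c →
      (∀ i, i ≠ j → ∃ g ∈ K j, ∃ T : Subgroup G, T.index ≠ 0 ∧ T.index ≤ c ∧
        ∀ t ∈ T, g * t * g⁻¹ * t ∈ N i) →
      ∃ B : Subgroup Γ, B.index ≠ 0 ∧ B.index ≤ c' ∧ (∀ b ∈ B, (b : G) ∈ K j) ∧
        ∀ v ∈ powers B (Fintype.card J - 1), ∃ u : Γ, (∀ i, i ≠ j → (u : G) ∈ N i) ∧
          (u : G) * (v : G)⁻¹ ∈ N j := by
  refine ⟨(Γ.index * (c * (max c 1) ^ Fintype.card J)).factorial, ?_⟩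
  intro j K N hN hcomm hKi hKc hT
  choose g hg T hTi hTc hinv using hT
  let T₁ : J → Subgroup G := fun i => if h : i ≠ j then T i h else ⊤
  have hT₁i : ∀ i, (T₁ i).index ≠ 0 := by
    intro i
    by_cases h : i ≠ j
    · simp only [T₁, dif_pos h]
      exact hTi i h
    · simp only [T₁, dif_neg h, Subgroup.index_top, ne_eq, one_ne_zero, not_false_eq_true]
  have hT₁c : ∀ i, (T₁ i).index ≤ max c 1 := by
    intro i
    by_cases h : i ≠ j
    · simp only [T₁, dif_pos h]
      exact (hTc i h).trans (le_max_left _ _)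
    · simp only [T₁, dif_neg h, Subgroup.index_top]
      exact le_max_right _ _
  let S : Subgroup G := Γ ⊓ (K j ⊓ ⨅ i, T₁ i)
  have hSi : S.index ≠ 0 :=
    Subgroup.index_inf_ne_zero hΓ (Subgroup.index_inf_ne_zero hKi (Subgroup.index_iInf_ne_zero hT₁i))
  have hSc : S.index ≤ Γ.index * (c * (max c 1) ^ Fintype.card J) := by
    refine Subgroup.index_inf_le.trans (Nat.mul_le_mul_left _ ?_)
    refine Subgroup.index_inf_le.trans (Nat.mul_le_mul hKc ?_)
    refine (Subgroup.index_iInf_le _).trans ?_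
    refine (Finset.prod_le_pow_card _ _ _ fun i _ => hT₁c i).trans ?_
    rfl
  let T' := S.normalCore
  have hcore : T'.index ≤ S.index.factorial ∧ T'.index ≠ 0 := by
    have h : T'.index ∣ S.index.factorial := by
      have : S.FiniteIndex := ⟨hSi⟩
      change S.normalCore.index ∣ _
      rw [Subgroup.normalCore_eq_ker, Subgroup.index_ker, Subgroup.index_eq_card, ← Nat.card_perm]
      exact Subgroup.card_subgroup_dvd_card _
    exact ⟨Nat.le_of_dvd (Nat.factorial_pos _) h,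
      fun h0 => (Nat.factorial_pos _).ne' (Nat.eq_zero_of_zero_dvd (h0 ▸ h))⟩
  have hT'S : T' ≤ S := S.normalCore_le
  have hT'n : T'.Normal := S.normalCore_normal
  refine ⟨T'.subgroupOf Γ, ?_, ?_, ?_, ?_⟩
  · exact fun h => hcore.2 (Nat.eq_zero_of_zero_dvd (h ▸ Subgroup.relIndex_dvd_index_of_normal _ _))
  · refine le_trans ?_ (hcore.1.trans (Nat.factorial_le hSc))
    exact Nat.le_of_dvd (Nat.pos_of_ne_zero hcore.2) (Subgroup.relIndex_dvd_index_of_normal _ _)
  · intro b hb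
    exact (hT'S (Subgroup.mem_subgroupOf.1 hb)).2.1
  · have hstep : ∀ t ∈ T', ∃ u ∈ T', (∀ i, i ≠ j → u ∈ N i) ∧
        u * (t ^ 2 ^ (Fintype.card J - 1))⁻¹ ∈ N j := by
      intro t ht
      have h := step j K N hN hcomm T' hT'n (fun x hx => (hT'S hx).2.1)
        (fun i => if h : i ≠ j then g i h else 1)
        (fun i hi => by simpa [hi] using hg i hi)
        (fun i hi x hx => by
          have hx' : x ∈ T i hi := by
            have h := (Subgroup.mem_iInf.1 (hT'S hx).2.2) i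
            simpa [T₁, hi] using h
          simpa [hi] using hinv i hi x hx')
        (Finset.univ.erase j) (Finset.notMem_erase _ _) t ht
      obtain ⟨u, hu, h1, h2⟩ := h
      rw [Finset.card_erase_of_mem (Finset.mem_univ _), Finset.card_univ] at h2
      exact ⟨u, hu, fun i hi => h1 i (Finset.mem_erase.2 ⟨hi, Finset.mem_univ _⟩), h2⟩
    have : ∀ i, (N i).Normal := hN
    intro v hv
    refine Subgroup.closure_induction (G := Γ)
      (p := fun (v : Γ) _ => ∃ u : Γ, (∀ i, i ≠ j → (u : G) ∈ N i) ∧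
      (u : G) * (v : G)⁻¹ ∈ N j) ?_ ?_ ?_ ?_ hv
    · rintro _ ⟨t, ht, rfl⟩
      obtain ⟨u, hu, h1, h2⟩ := hstep t (Subgroup.mem_subgroupOf.1 ht)
      exact ⟨⟨u, (hT'S hu).1⟩, h1, h2⟩
    · exact ⟨1, fun i _ => (N i).one_mem, by simp [(N j).one_mem]⟩
    · rintro a b - - ⟨u, hu1, hu2⟩ ⟨w, hw1, hw2⟩
      refine ⟨u * w, fun i hi => (N i).mul_mem (hu1 i hi) (hw1 i hi), ?_⟩
      rw [← QuotientGroup.eq_one_iff] at hu2 hw2 ⊢
      simp only [QuotientGroup.mk_mul, QuotientGroup.mk_inv, Subgroup.coe_mul,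
        mul_inv_eq_one] at hu2 hw2 ⊢
      rw [hu2, hw2]
    · rintro a - ⟨u, hu1, hu2⟩
      refine ⟨u⁻¹, fun i hi => (N i).inv_mem (hu1 i hi), ?_⟩
      rw [← QuotientGroup.eq_one_iff] at hu2 ⊢
      simp only [QuotientGroup.mk_mul, QuotientGroup.mk_inv, Subgroup.coe_inv,
        mul_inv_eq_one] at hu2 ⊢
      rw [hu2]

end

end Pool.Agent.E8helper40.EQ
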