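import Pool.Agent.E8helper40.EQ.Fields

/-!
# Products of strongly equidistributed sequences with independent fields
-/

set_option autoImplicit false

open MeasureTheory Filter Topology
open scoped ENNReal BoundedContinuousFunction

namespace Pool.Agent.E8helper40.EQ

variable {G : Type} [Group G] {Γ : Subgroup G} {J : Type} [Fintype J] {W : J → Type}

/-- The special points of a product. -/
def SpecialPoints.pi (P : ∀ j, SpecialPoints Γ (W j)) : SpecialPoints Γ (∀ j, W j) where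
  Z := ∀ j, (P j).Z
  pt := fun z j => (P j).pt (z j)
  pt_injective := fun z z' h => funext fun j => (P j).pt_injective (congrFun h j)
  orbit_finite := fun z => EQ.orbit_finite P z
  K := fun z => ⨅ j, (P j).K (z j)
  N := fun z => ⨅ j, (P j).N (z j)
  N_normal := fun z => Subgroup.normal_iInf_normal fun j => (P j).N_normal (z j)
  comm := fun z a ha b hb => by
    rw [Subgroup.mem_iInf] at ha hb ⊢
    exact fun j => (P j).comm (z j) a (ha j) b (hb j)
  K_smul := fun γ z => iInf_congr fun j => (P j).K_smul γ (z j)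
  N_smul := fun γ z => iInf_congr fun j => (P j).N_smul γ (z j)
  fixed := fun γ z h => funext fun j => (P j).fixed γ (z j) ((Subgroup.mem_iInf.1 h) j)

/-- The lemma on groups for a subgroup `B₀` of `Γ`. -/
theorem exists_subgroup' (Γ : Subgroup G) (hΓ : Γ.index ≠ 0) (c k : ℕ) :
    ∃ c' : ℕ, ∀ (j : J) (K N : J → Subgroup G), (∀ i, (N i).Normal) →
      (∀ a ∈ K j, ∀ b ∈ K j, a * b * a⁻¹ * b⁻¹ ∈ N j) → (K j).index ≠ 0 → (K j).index ≤ c →
      (∀ i, i ≠ j → ∃ g ∈ K j, ∃ T : Subgroup G, T.index ≠ 0 ∧ T.index ≤ c ∧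
        ∀ t ∈ T, g * t * g⁻¹ * t ∈ N i) →
      ∀ B₀ : Subgroup Γ, B₀.index ≠ 0 → B₀.index ≤ c →
      ∃ B : Subgroup Γ, B.index ≠ 0 ∧ B.index ≤ c' ∧ (∀ b ∈ B, (b : G) ∈ K j) ∧
        ∀ v ∈ powers B (Fintype.card J - 1 + k), ∃ u ∈ powers B₀ k,
          (∀ i, i ≠ j → (u : G) ∈ N i) ∧ (u : G) * (v : G)⁻¹ ∈ N j := by
  classical
  refine ⟨((c * Γ.index) * (c * (max c 1) ^ Fintype.card J)).factorial, ?_⟩
  intro j K N hN hcomm hKi hKc hT B₀ hB₀ hB₀c
  choose g hg T hTi hTc hinv using hT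
  let T₁ : J → Subgroup G := fun i => if h : i ≠ j then T i h else ⊤
  have hT₁i : ∀ i, (T₁ i).index ≠ 0 := by
    intro i
    by_cases h : i ≠ j
    · simp only [T₁, dif_pos h]
      exact hTi i h
    · simp only [T₁, dif_neg h, Subgroup.index_top, ne_eq, one_ne_zero, not_false_eq_true]
  have hT₁c : ∀ i, (T₁ i).index ≤ max c 1 := by
    intro i
    by_cases h : i ≠ j
    · simp only [T₁, dif_pos h]
      exact (hTc i h).trans (le_max_left _ _)
    · simp only [T₁, dif_neg h, Subgroup.index_top]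
      exact le_max_right _ _
  let E : Subgroup G := B₀.map Γ.subtype
  have hE : E.index = B₀.index * Γ.index := by
    have h := Subgroup.index_map_subtype (H := Γ) B₀
    exact h
  have hE0 : E.index ≠ 0 := by
    rw [hE]
    exact Nat.mul_ne_zero hB₀ hΓ
  let S : Subgroup G := E ⊓ (K j ⊓ ⨅ i, T₁ i)
  have hSi : S.index ≠ 0 :=
    Subgroup.index_inf_ne_zero hE0 (Subgroup.index_inf_ne_zero hKi (Subgroup.index_iInf_ne_zero hT₁i))
  have hSc : S.index ≤ (c * Γ.index) * (c * (max c 1) ^ Fintype.card J) := by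
    refine Subgroup.index_inf_le.trans (Nat.mul_le_mul ?_ ?_)
    · rw [hE]
      exact Nat.mul_le_mul_right _ hB₀c
    · refine Subgroup.index_inf_le.trans (Nat.mul_le_mul hKc ?_)
      refine (Subgroup.index_iInf_le _).trans ?_
      refine (Finset.prod_le_pow_card _ _ _ fun i _ => hT₁c i).trans ?_
      rfl
  let T' := S.normalCore
  have hcore : T'.index ≤ S.index.factorial ∧ T'.index ≠ 0 := by
    have h : T'.index ∣ S.index.factorial := by
      have : S.FiniteIndex := ⟨hSi⟩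
      change S.normalCore.index ∣ _
      rw [Subgroup.normalCore_eq_ker, Subgroup.index_ker, Subgroup.index_eq_card, ← Nat.card_perm]
      exact Subgroup.card_subgroup_dvd_card _
    exact ⟨Nat.le_of_dvd (Nat.factorial_pos _) h,
      fun h0 => (Nat.factorial_pos _).ne' (Nat.eq_zero_of_zero_dvd (h0 ▸ h))⟩
  have hT'S : T' ≤ S := S.normalCore_le
  have hT'n : T'.Normal := S.normalCore_normal
  have hEΓ : ∀ u ∈ E, ∃ h : u ∈ Γ, (⟨u, h⟩ : Γ) ∈ B₀ := by
    rintro _ ⟨w, hw, rfl⟩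
    exact ⟨w.2, hw⟩
  refine ⟨T'.subgroupOf Γ, ?_, ?_, ?_, ?_⟩
  · exact fun h => hcore.2 (Nat.eq_zero_of_zero_dvd (h ▸ Subgroup.relIndex_dvd_index_of_normal _ _))
  · refine le_trans ?_ (hcore.1.trans (Nat.factorial_le hSc))
    exact Nat.le_of_dvd (Nat.pos_of_ne_zero hcore.2) (Subgroup.relIndex_dvd_index_of_normal _ _)
  · intro b hb
    exact (hT'S (Subgroup.mem_subgroupOf.1 hb)).2.1
  · have hstep : ∀ t ∈ T', ∃ u ∈ T', (∀ i, i ≠ j → u ∈ N i) ∧
        u * (t ^ 2 ^ (Fintype.card J - 1))⁻¹ ∈ N j := by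
      intro t ht
      have h := step j K N hN hcomm T' hT'n (fun x hx => (hT'S hx).2.1)
        (fun i => if h : i ≠ j then g i h else 1)
        (fun i hi => by simpa [hi] using hg i hi)
        (fun i hi x hx => by
          have hx' : x ∈ T i hi := by
            have h := (Subgroup.mem_iInf.1 (hT'S hx).2.2) i
            simpa [T₁, hi] using h
          simpa [hi] using hinv i hi x hx')
        (Finset.univ.erase j) (Finset.notMem_erase _ _) t ht
      obtain ⟨u, hu, h1, h2⟩ := h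
      rw [Finset.card_erase_of_mem (Finset.mem_univ _), Finset.card_univ] at h2
      exact ⟨u, hu, fun i hi => h1 i (Finset.mem_erase.2 ⟨hi, Finset.mem_univ _⟩), h2⟩
    have : ∀ i, (N i).Normal := hN
    intro v hv
    refine Subgroup.closure_induction (G := Γ)
      (p := fun (v : Γ) _ => ∃ u ∈ powers B₀ k, (∀ i, i ≠ j → (u : G) ∈ N i) ∧
      (u : G) * (v : G)⁻¹ ∈ N j) ?_ ?_ ?_ ?_ hv
    · rintro _ ⟨t, ht, rfl⟩
      obtain ⟨u, hu, h1, h2⟩ := hstep t (Subgroup.mem_subgroupOf.1 ht)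
      obtain ⟨huΓ, huB⟩ := hEΓ u (hT'S hu).1
      refine ⟨(⟨u, huΓ⟩ : Γ) ^ 2 ^ k, Subgroup.subset_closure ⟨_, huB, rfl⟩, ?_, ?_⟩
      · intro i hi
        exact (N i).pow_mem (h1 i hi) _
      · rw [← QuotientGroup.eq_one_iff] at h2 ⊢
        simp only [QuotientGroup.mk_mul, QuotientGroup.mk_inv, QuotientGroup.mk_pow,
          Subgroup.coe_pow, mul_inv_eq_one] at h2 ⊢
        rw [h2, ← pow_mul, ← pow_add]
    · exact ⟨1, Subgroup.one_mem _, fun i _ => (N i).one_mem, by simp [(N j).one_mem]⟩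
    · rintro a b - - ⟨u, hu, hu1, hu2⟩ ⟨w, hw, hw1, hw2⟩
      refine ⟨u * w, Subgroup.mul_mem _ hu hw, fun i hi => (N i).mul_mem (hu1 i hi) (hw1 i hi), ?_⟩
      rw [← QuotientGroup.eq_one_iff] at hu2 hw2 ⊢
      simp only [QuotientGroup.mk_mul, QuotientGroup.mk_inv, Subgroup.coe_mul,
        mul_inv_eq_one] at hu2 hw2 ⊢
      rw [hu2, hw2]
    · rintro a - ⟨u, hu, hu1, hu2⟩
      refine ⟨u⁻¹, Subgroup.inv_mem _ hu, fun i hi => (N i).inv_mem (hu1 i hi), ?_⟩
      rw [← QuotientGroup.eq_one_iff] at hu2 ⊢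
      simp only [QuotientGroup.mk_mul, QuotientGroup.mk_inv, Subgroup.coe_inv,
        mul_inv_eq_one] at hu2 ⊢
      rw [hu2]

section orbits

variable (P : ∀ j, SpecialPoints Γ (W j))

omit [Fintype J] in
/-- Moving one coordinate of a point of the orbit of `x` under `H`. -/
lemma move' [DecidableEq J] (x : ∀ j, (P j).Z) (H : Subgroup Γ) (B : J → Subgroup Γ) (k : ℕ)
    (hB : ∀ j, ∀ v ∈ powers (B j) k, ∃ u ∈ H, (∀ i, i ≠ j → (u : G) ∈ (P i).N (x i)) ∧
      (u : G) * (v : G)⁻¹ ∈ (P j).N (x j))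
    (y : ∀ j, (P j).Z) (hy : y ∈ MulAction.orbit H x) (j : J) (v : Γ) (hv : v ∈ powers (B j) k) :
    Function.update y j (v • y j) ∈ MulAction.orbit H x := by
  obtain ⟨u, huH, hu1, hu2⟩ := hB j v hv
  obtain ⟨γ, rfl⟩ := hy
  have hNx : ∀ i, (P i).N (((γ : Γ) • x) i) = (P i).N (x i) := fun i => (P i).N_smul γ (x i)
  have h : Function.update ((γ : Γ) • x) j (v • ((γ : Γ) • x) j) = u • ((γ : Γ) • x) := by
    funext i
    rcases eq_or_ne i j with rfl | hi
    · rw [Function.update_self]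
      have h1 : (u * v⁻¹) • (v • ((γ : Γ) • x) i) = v • ((γ : Γ) • x) i := by
        refine (P i).fixed _ _ ?_
        rw [(P i).N_smul, hNx]
        exact hu2
      rw [smul_smul, inv_mul_cancel_right] at h1
      exact h1.symm
    · rw [Function.update_of_ne hi]
      refine ((P i).fixed u _ ?_).symm
      rw [hNx]
      exact hu1 i hi
  refine ⟨⟨u, huH⟩ * γ, ?_⟩
  change ((u * (γ : Γ)) • x) = Function.update ((γ : Γ) • x) j (v • ((γ : Γ) • x) j)
  rw [h, mul_smul]

/-- The orbit of `x` is stable under independent changes of the coordinates. -/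
lemma move_all' (x : ∀ j, (P j).Z) (H : Subgroup Γ) (B : J → Subgroup Γ) (k : ℕ)
    (hB : ∀ j, ∀ v ∈ powers (B j) k, ∃ u ∈ H, (∀ i, i ≠ j → (u : G) ∈ (P i).N (x i)) ∧
      (u : G) * (v : G)⁻¹ ∈ (P j).N (x j))
    (y : ∀ j, (P j).Z) (hy : y ∈ MulAction.orbit H x) (z : ∀ j, (P j).Z)
    (hz : ∀ j, z j ∈ MulAction.orbit (powers (B j) k) (y j)) : z ∈ MulAction.orbit H x := by
  classical
  have key : ∀ s : Finset J, (fun j => if j ∈ s then z j else y j) ∈ MulAction.orbit H x := by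
    intro s
    induction s using Finset.induction_on with
    | empty => simpa using hy
    | insert a s ha ih =>
      obtain ⟨v, hv⟩ := hz a
      have h := move' P x H B k hB _ ih a v v.2
      convert h using 1
      funext i
      rcases eq_or_ne i a with rfl | hi
      · rw [Function.update_self]
        simp only [Finset.mem_insert_self, if_true, ha, if_false]
        exact hv.symm
      · rw [Function.update_of_ne hi]
        simp [Finset.mem_insert, hi]
  simpa using key Finset.univ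

end orbits

variable [∀ j, TopologicalSpace (W j)] [∀ j, SecondCountableTopology (W j)]
  [∀ j, TopologicalSpace.PseudoMetrizableSpace (W j)] [∀ j, MeasurableSpace (W j)]
  [∀ j, BorelSpace (W j)]

/-- Convergence along a sequence of subgroups of bounded index. -/
theorem tendsto_orbits (hΓ : Γ.index ≠ 0) (P : ∀ j, SpecialPoints Γ (W j))
    (m : ∀ j, ProbabilityMeasure (W j)) (c k : ℕ) (x : ℕ → ∀ j, (P j).Z)
    (hK : ∀ i j, ((P j).K (x i j)).index ≠ 0 ∧ ((P j).K (x i j)).index ≤ c)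
    (hind : ∀ i, Independent P c (x i))
    (heq : ∀ j, (P j).StronglyEquidistributed (fun i => x i j) (m j)) (f : (∀ j, W j) →ᵇ ℝ)
    (γ₀ : ℕ → Γ) (B₀ : ℕ → Subgroup Γ) (hB₀ : ∀ i, (B₀ i).index ≠ 0)
    (hB₀c : ∀ i, (B₀ i).index ≤ c) :
    Tendsto (fun i => ∫ w, f w ∂((SpecialPoints.pi P).orbitMeasure (powers (B₀ i) k)
      (γ₀ i • x i))) atTop (𝓝 (∫ w, f w ∂(Measure.pi fun j => (m j : Measure (W j))))) := by
  classical
  obtain ⟨c', hc'⟩ := exists_subgroup' (J := J) Γ hΓ c k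
  set k' := Fintype.card J - 1 + k
  let x₀ : ℕ → ∀ j, (P j).Z := fun i => γ₀ i • x i
  have hK₀ : ∀ i j, (P j).K (x₀ i j) = (P j).K (x i j) := fun i j => (P j).K_smul _ _
  have hN₀ : ∀ i j, (P j).N (x₀ i j) = (P j).N (x i j) := fun i j => (P j).N_smul _ _
  have hB : ∀ i j, ∃ B : Subgroup Γ, B.index ≠ 0 ∧ B.index ≤ c' ∧
      (∀ b ∈ B, (b : G) ∈ (P j).K (x i j)) ∧
      ∀ v ∈ powers B k', ∃ u ∈ powers (B₀ i) k, (∀ l, l ≠ j → (u : G) ∈ (P l).N (x₀ i l)) ∧
        (u : G) * (v : G)⁻¹ ∈ (P j).N (x₀ i j) := by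
    intro i j
    simp only [hN₀]
    exact hc' j (fun l => (P l).K (x i l)) (fun l => (P l).N (x i l)) (fun l => (P l).N_normal _)
      ((P j).comm _) (hK i j).1 (hK i j).2 (fun l hl => hind i l j hl) (B₀ i) (hB₀ i) (hB₀c i)
  choose B hB0 hBc hBK hBu using hB
  -- orbits as finite sets
  have hfin0 : ∀ (H : Subgroup Γ) (z : ∀ j, (P j).Z), (MulAction.orbit H z).Finite := by
    intro H z
    refine (orbit_finite P z).subset ?_
    rintro _ ⟨v, rfl⟩
    exact ⟨(v : Γ), rfl⟩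
  let O : ℕ → Finset (∀ j, (P j).Z) := fun i => (hfin0 (powers (B₀ i) k) (x₀ i)).toFinset
  have hOfin : ∀ i j (z : (P j).Z), (MulAction.orbit (powers (B i j) k') z).Finite := by
    intro i j z
    refine ((P j).orbit_finite z).subset ?_
    rintro _ ⟨v, rfl⟩
    exact ⟨(v : Γ), rfl⟩
  let Q : ∀ (i : ℕ) (j : J), (P j).Z → Finset (P j).Z := fun i j z => (hOfin i j z).toFinset
  let R : ∀ i : ℕ, (∀ j, (P j).Z) → Finset (∀ j, (P j).Z) := fun i z =>
    Fintype.piFinset fun j => Q i j (z j)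
  set I := ∫ w, f w ∂(Measure.pi fun j => (m j : Measure (W j)))
  let φ : (∀ j, (P j).Z) → ∀ j, W j := fun z j => (P j).pt (z j)
  have hmemO : ∀ i z, z ∈ O i ↔ z ∈ MulAction.orbit (powers (B₀ i) k) (x₀ i) :=
    fun i z => by simp [O]
  have hmemR : ∀ i y z, z ∈ R i y ↔ ∀ j, z j ∈ MulAction.orbit (powers (B i j) k') (y j) := by
    intro i y z
    simp [R, Q, Fintype.mem_piFinset]
  have hblock : ∀ i, ∃ y ∈ O i, |((O i).card : ℝ)⁻¹ * ∑ z ∈ O i, f (φ z) - I|
      ≤ |((R i y).card : ℝ)⁻¹ * ∑ z ∈ R i y, f (φ z) - I| := by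
    intro i
    refine exists_block (O i) ⟨x₀ i, (hmemO i _).2 (MulAction.mem_orbit_self _)⟩ (R i) ?_ ?_ ?_
      (fun z => f (φ z)) I
    · intro y hy z hz
      rw [hmemO] at hy ⊢
      exact move_all' P (x₀ i) (powers (B₀ i) k) (B i) k' (hBu i) y hy z ((hmemR i y z).1 hz)
    · intro y _
      rw [hmemR]
      exact fun j => MulAction.mem_orbit_self _
    · intro y _ z hz
      have h := (hmemR i y z).1 hz
      ext w
      rw [hmemR, hmemR]
      refine forall_congr' fun j => ?_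
      rw [MulAction.orbit_eq_iff.2 (h j)]
  choose y hyO hy using hblock
  have hyγ : ∀ i, ∃ γ : Γ, y i = γ • x i := by
    intro i
    obtain ⟨γ, hγ⟩ := (hmemO i _).1 (hyO i)
    refine ⟨(γ : Γ) * γ₀ i, ?_⟩
    rw [mul_smul]
    exact hγ.symm
  choose γ hγ using hyγ
  -- the measures of the blocks
  have hQne : ∀ i j, (Q i j (y i j)).Nonempty := fun i j =>
    ⟨y i j, by simp [Q, MulAction.mem_orbit_self]⟩
  let ν : ℕ → ∀ j, ProbabilityMeasure (W j) := fun i j =>
    ⟨uniform (Q i j (y i j) : Set (P j).Z) (P j).pt, uniform_prob _ (hQne i j) _⟩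
  have hν : Tendsto ν atTop (𝓝 m) := by
    rw [tendsto_pi_nhds]
    intro j
    rw [ProbabilityMeasure.tendsto_iff_forall_integral_tendsto]
    intro g
    rw [Metric.tendsto_atTop']
    intro ε hε
    obtain ⟨M, hM⟩ := eventually_atTop.1 (heq j c' k' g ε hε)
    refine ⟨M, fun i hi => ?_⟩
    have h := hM i hi.le (γ i) (B i j) (hBK i j) (hB0 i j) (hBc i j)
    rw [Real.dist_eq]
    have hQ : (Q i j (y i j) : Set (P j).Z)
        = MulAction.orbit (powers (B i j) k') (γ i • x i j) := by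
      have h1 : y i j = γ i • x i j := by
        rw [hγ i]
        rfl
      simp only [Q, Set.Finite.coe_toFinset]
      rw [h1]
    have hmeas : ((ν i j : ProbabilityMeasure (W j)) : Measure (W j))
        = (P j).orbitMeasure (powers (B i j) k') (γ i • x i j) := by
      change uniform (Q i j (y i j) : Set (P j).Z) (P j).pt = _
      rw [hQ]
      rfl
    rw [hmeas]
    exact h
  have hpi : Tendsto (fun i => ∫ w, f w ∂((ProbabilityMeasure.pi (ν i) :
      ProbabilityMeasure (∀ j, W j)) : Measure (∀ j, W j))) atTop (𝓝 I) := by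
    have h1 : Tendsto (fun i => ProbabilityMeasure.pi (ν i)) atTop
        (𝓝 (ProbabilityMeasure.pi m)) :=
      (ProbabilityMeasure.continuous_pi.tendsto m).comp hν
    exact (ProbabilityMeasure.tendsto_iff_forall_integral_tendsto.1 h1) f
  have hR : ∀ i, ∫ w, f w ∂((ProbabilityMeasure.pi (ν i) :
      ProbabilityMeasure (∀ j, W j)) : Measure (∀ j, W j))
      = ((R i (y i)).card : ℝ)⁻¹ * ∑ z ∈ R i (y i), f (φ z) := by
    intro i
    rw [ProbabilityMeasure.toMeasure_pi]
    have h := pi_uniform (fun j => Q i j (y i j)) (hQne i) (fun j => (P j).pt)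
    change ∫ w, f w ∂(Measure.pi fun j => uniform (Q i j (y i j) : Set (P j).Z) (P j).pt) = _
    rw [h, integral_uniform]
  have hE : ∀ i, ∫ w, f w ∂((SpecialPoints.pi P).orbitMeasure (powers (B₀ i) k) (γ₀ i • x i))
      = ((O i).card : ℝ)⁻¹ * ∑ z ∈ O i, f (φ z) := by
    intro i
    have h1 : (SpecialPoints.pi P).orbitMeasure (powers (B₀ i) k) (γ₀ i • x i)
        = uniform (O i : Set (∀ j, (P j).Z)) φ := by
      simp only [O, Set.Finite.coe_toFinset]
      rfl
    rw [h1, integral_uniform]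
  have hpi' : Tendsto (fun i => |∫ w, f w ∂((ProbabilityMeasure.pi (ν i) :
      ProbabilityMeasure (∀ j, W j)) : Measure (∀ j, W j)) - I|) atTop (𝓝 0) := by
    have h := (hpi.sub_const I).abs
    simpa using h
  rw [tendsto_iff_dist_tendsto_zero]
  refine squeeze_zero (fun i => dist_nonneg) (fun i => ?_) hpi'
  rw [Real.dist_eq, hE i, hR i]
  exact hy i

/-- The product of strongly equidistributed sequences with independent fields is strongly
equidistributed. -/
theorem strong_main (hΓ : Γ.index ≠ 0) (P : ∀ j, SpecialPoints Γ (W j))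
    (m : ∀ j, ProbabilityMeasure (W j)) (c : ℕ) (x : ℕ → ∀ j, (P j).Z)
    (hK : ∀ i j, ((P j).K (x i j)).index ≠ 0 ∧ ((P j).K (x i j)).index ≤ c)
    (hind : ∀ i, Independent P c (x i))
    (heq : ∀ j, (P j).StronglyEquidistributed (fun i => x i j) (m j)) :
    (SpecialPoints.pi P).StronglyEquidistributed x (ProbabilityMeasure.pi m) := by
  classical
  intro c₁ k f ε hε
  set I := ∫ w, f w ∂((ProbabilityMeasure.pi m : ProbabilityMeasure (∀ j, W j)) :
    Measure (∀ j, W j)) with hI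
  -- the set of bad choices
  let bad : ℕ → Γ × Subgroup Γ → Prop := fun i q => q.2.index ≠ 0 ∧ q.2.index ≤ c₁ ∧
    ε ≤ |∫ w, f w ∂((SpecialPoints.pi P).orbitMeasure (powers q.2 k) (q.1 • x i)) - I|
  have hc₂ : ∀ i, ∃ q : Γ × Subgroup Γ, q.2.index ≠ 0 ∧ q.2.index ≤ max c₁ 1 ∧
      ((∃ q', bad i q') → bad i q) := by
    intro i
    by_cases h : ∃ q', bad i q'
    · obtain ⟨q, hq⟩ := h
      exact ⟨q, hq.1, hq.2.1.trans (le_max_left _ _), fun _ => hq⟩
    · refine ⟨(1, ⊤), ?_, ?_, fun h' => absurd h' h⟩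
      · simp
      · simp
  choose q hq0 hqc hq using hc₂
  set c₂ := max c (max c₁ 1)
  have hlim := tendsto_orbits hΓ P m c₂ k x
    (fun i j => ⟨(hK i j).1, (hK i j).2.trans (le_max_left _ _)⟩)
    (fun i a b hab => by
      obtain ⟨g, hg, T, hT0, hTc, hT⟩ := hind i a b hab
      exact ⟨g, hg, T, hT0, hTc.trans (le_max_left _ _), hT⟩)
    heq f (fun i => (q i).1) (fun i => (q i).2) hq0
    (fun i => (hqc i).trans (le_max_right _ _))
  rw [Metric.tendsto_atTop'] at hlim
  obtain ⟨M, hM⟩ := hlim ε hε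
  rw [eventually_atTop]
  refine ⟨M + 1, fun i hi γ B _ hB0 hBc => ?_⟩
  by_contra hcon
  push Not at hcon
  have hbad : bad i (q i) := hq i ⟨(γ, B), hB0, hBc, hcon⟩
  have h1 := hM i (by omega)
  rw [Real.dist_eq] at h1
  exact absurd hbad.2.2 (not_le.2 h1)

end Pool.Agent.E8helper40.EQ
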